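import Mathlib
import Pool.Agent.Q327.AvgTail
import Pool.Agent.Q327.NadicLattice

/-!
The average `N`-adic complexity of the finite sequences of length `n` is `n / 2 + O(1)`, with an
absolute constant: `n / 2 - 2 ≤ E_n^fin ≤ n / 2 + 4` for all `N ≥ 2` and all `n`.
-/

set_option autoImplicit false

namespace Pool.Agent.Results.MP_68df70_lc.HalfLength

open Finset Filter Topology Pool.Agent.Q327 Pool.Agent.Q327.NAdic

/-- The truncation `∑_{i < m} b_i N^i` of the `N`-adic integer `∑ b_i N^i`. -/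
def trunc (N : ℕ) (b : ℕ → Fin N) (m : ℕ) : ℤ := ∑ i ∈ range m, ((b i : ℕ) : ℤ) * (N : ℤ) ^ i

/-- The `N`-adic integer `α = ∑ b_i N^i` is the rational number `f / g` in lowest terms:
`g > 0`, `f` and `g` are coprime, and `g α = f` in `ℤ_N`, that is, modulo every power of `N`. -/
def Represents (N : ℕ) (b : ℕ → Fin N) (f g : ℤ) : Prop :=
  0 < g ∧ IsCoprime f g ∧ ∀ m : ℕ, (N : ℤ) ^ m ∣ g * trunc N b m - f

/-- The set of the (finite) values `λ_N(b) = log_N max(|f|, |g|)` over all infinite extensions `b`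
of the finite sequence `a` whose `N`-adic integer is a rational number `f / g`. -/
def lamSet (N : ℕ) {n : ℕ} (a : Fin n → Fin N) : Set ℝ :=
  {r | ∃ (b : ℕ → Fin N) (f g : ℤ), (∀ i : Fin n, b i = a i) ∧ Represents N b f g ∧
    r = Real.logb N ((max |f| |g| : ℤ) : ℝ)}

/-- The `N`-adic complexity of a finite sequence: the minimum (see `result`) of `λ_N` over all
infinite extensions. -/
noncomputable def lam (N : ℕ) {n : ℕ} (a : Fin n → Fin N) : ℝ := sInf (lamSet N a)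

/-- The average of the `N`-adic complexity over the `N^n` finite sequences of length `n`. -/
noncomputable def Efin (N n : ℕ) : ℝ := (∑ a : Fin n → Fin N, lam N a) / (N : ℝ) ^ n

/-! ### The integer of a word -/

/-- The integer `∑_{i<n} a_i N^i`. -/
def code (N : ℕ) {n : ℕ} (a : Fin n → Fin N) : ℕ := ∑ i : Fin n, (a i : ℕ) * N ^ (i : ℕ)

lemma code_eq (N : ℕ) {n : ℕ} (a : Fin n → Fin N) :
    code N a = (finFunctionFinEquiv a : ℕ) := (finFunctionFinEquiv_apply a).symm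

lemma code_lt (N : ℕ) {n : ℕ} (a : Fin n → Fin N) : code N a < N ^ n := by
  rw [code_eq]; exact (finFunctionFinEquiv a).2

lemma code_inj (N : ℕ) {n : ℕ} (a a' : Fin n → Fin N) (h : code N a = code N a') : a = a' := by
  rw [code_eq, code_eq] at h
  exact finFunctionFinEquiv.injective (Fin.ext h)

lemma trunc_eq_code (N : ℕ) {n : ℕ} (a : Fin n → Fin N) (b : ℕ → Fin N)
    (h : ∀ i : Fin n, b i = a i) : trunc N b n = (code N a : ℤ) := by
  unfold trunc code
  rw [Finset.sum_range]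
  push_cast
  refine Finset.sum_congr rfl fun i _ => ?_
  rw [h i]

lemma trunc_succ (N : ℕ) (b : ℕ → Fin N) (m : ℕ) :
    trunc N b (m + 1) = trunc N b m + ((b m : ℕ) : ℤ) * (N : ℤ) ^ m := by
  unfold trunc
  rw [sum_range_succ]

lemma trunc_add (N : ℕ) (b : ℕ → Fin N) (m k : ℕ) :
    (N : ℤ) ^ m ∣ trunc N b (m + k) - trunc N b m := by
  induction k with
  | zero => simp
  | succ k ih =>
    rw [← add_assoc, trunc_succ]
    have h1 : (N : ℤ) ^ m ∣ ((b (m + k) : ℕ) : ℤ) * (N : ℤ) ^ (m + k) :=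
      Dvd.dvd.mul_left (pow_dvd_pow _ (Nat.le_add_right _ _)) _
    have h2 := dvd_add ih h1
    have h3 : trunc N b (m + k) + ((b (m + k) : ℕ) : ℤ) * (N : ℤ) ^ (m + k) - trunc N b m =
      trunc N b (m + k) - trunc N b m + ((b (m + k) : ℕ) : ℤ) * (N : ℤ) ^ (m + k) := by ring
    rw [h3]; exact h2

/-! ### Extensions -/

/-- A congruence `g A ≡ f mod N^n` with `g` prime to `N` extends to an `N`-adic identity. -/
lemma exists_extension (N : ℕ) (hN : 2 ≤ N) {n : ℕ} (a : Fin n → Fin N) (f g : ℤ)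
    (hg : IsCoprime g (N : ℤ)) (h : (N : ℤ) ^ n ∣ g * (code N a : ℤ) - f) :
    ∃ b : ℕ → Fin N, (∀ i : Fin n, b i = a i) ∧
      ∀ m : ℕ, (N : ℤ) ^ m ∣ g * trunc N b m - f := by
  have hNpos : (0 : ℤ) < N := by exact_mod_cast (by omega : 0 < N)
  have hdig : ∀ c : ℤ, ∃ e : Fin N, (N : ℤ) ∣ c + g * ((e : ℕ) : ℤ) := by
    intro c
    obtain ⟨u, v, huv⟩ := hg
    have h0 := Int.emod_nonneg (-c * u) hNpos.ne'
    have h1 := Int.emod_lt_of_pos (-c * u) hNpos
    refine ⟨⟨((-c * u) % N).toNat, by omega⟩, ?_⟩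
    simp only [Int.toNat_of_nonneg h0]
    rw [Int.emod_def]
    refine ⟨c * v - g * ((-c * u) / N), ?_⟩
    linear_combination (-c) * huv
  choose dig hdig using hdig
  obtain ⟨c0, hc0⟩ := h
  let cs : ℕ → ℤ := fun k => Nat.rec c0 (fun _ c => (c + g * ((dig c : ℕ) : ℤ)) / N) k
  have hcs : ∀ k, cs (k + 1) * N = cs k + g * ((dig (cs k) : ℕ) : ℤ) := by
    intro k
    exact Int.ediv_mul_cancel (hdig (cs k))
  let b : ℕ → Fin N := fun i => if h : i < n then a ⟨i, h⟩ else dig (cs (i - n))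
  have hb : ∀ i : Fin n, b i = a i := by
    intro i
    simp only [b]
    rw [dif_pos i.2]
  have hb2 : ∀ k, b (n + k) = dig (cs k) := by
    intro k
    simp only [b]
    rw [dif_neg (by omega)]
    congr 2
    omega
  have key : ∀ k, g * trunc N b (n + k) - f = cs k * (N : ℤ) ^ (n + k) := by
    intro k
    induction k with
    | zero =>
      rw [add_zero, trunc_eq_code N a b hb, hc0]
      exact mul_comm _ _
    | succ k ih =>
      rw [← add_assoc, trunc_succ, hb2, pow_succ]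
      have := hcs k
      linear_combination ih - (N : ℤ) ^ (n + k) * this
  refine ⟨b, hb, fun m => ?_⟩
  rcases le_total n m with hm | hm
  · obtain ⟨k, rfl⟩ := Nat.exists_eq_add_of_le hm
    rw [key]
    exact dvd_mul_left _ _
  · obtain ⟨k, hk⟩ := Nat.exists_eq_add_of_le hm
    have h1 := trunc_add N b m k
    rw [← hk] at h1
    have h2 := key 0
    rw [add_zero] at h2
    have h3 : (N : ℤ) ^ m ∣ g * trunc N b n - f := by
      rw [h2]
      exact Dvd.dvd.mul_left (pow_dvd_pow _ hm) _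
    have h4 : g * trunc N b m - f =
        (g * trunc N b n - f) - g * (trunc N b n - trunc N b m) := by ring
    rw [h4]
    exact dvd_sub h3 (Dvd.dvd.mul_left h1 _)

/-- If `g α = f` with `f`, `g` coprime, then `g` is prime to `N`. -/
lemma Represents.coprime {N : ℕ} {b : ℕ → Fin N} {f g : ℤ} (h : Represents N b f g) :
    IsCoprime g (N : ℤ) := by
  obtain ⟨_, ⟨u, v, huv⟩, h3⟩ := h
  obtain ⟨s, hs⟩ := h3 1
  rw [pow_one] at hs
  refine ⟨u * trunc N b 1 + v, -(u * s), ?_⟩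
  linear_combination huv + u * hs

/-! ### The minimum -/

/-- The set of the values `max(|f|,|g|)`. -/
def sizes (N : ℕ) {n : ℕ} (a : Fin n → Fin N) : Set ℕ :=
  {m | ∃ (b : ℕ → Fin N) (f g : ℤ), (∀ i : Fin n, b i = a i) ∧ Represents N b f g ∧
    (m : ℤ) = max |f| |g|}

/-- The minimum of the values `max(|f|,|g|)`. -/
noncomputable def X (N : ℕ) {n : ℕ} (a : Fin n → Fin N) : ℕ := sInf (sizes N a)

lemma exists_small (N : ℕ) (hN : 2 ≤ N) {n : ℕ} (a : Fin n → Fin N) :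
    ∃ m ∈ sizes N a, m * mu (code N a) ((N ^ n : ℕ) : ℤ) ≤ 3 * (N - 1) * N ^ n := by
  have hNpos : 0 < N := by omega
  obtain ⟨F, G, hG0, hGN, hdvd, hsize⟩ :=
    good_vector N hN (code N a : ℤ) (N ^ n) (pow_pos hNpos n)
  set d := Int.gcd F G with hd
  have hd0 : 0 < d := Int.gcd_pos_of_ne_zero_right _ hG0.ne'
  obtain ⟨f, hf⟩ : (d : ℤ) ∣ F := Int.gcd_dvd_left _ _
  obtain ⟨g, hg⟩ : (d : ℤ) ∣ G := Int.gcd_dvd_right _ _
  have hfg : IsCoprime f g := by
    rw [Int.isCoprime_iff_gcd_eq_one]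
    have h1 : Int.gcd (d * f) (d * g) = d * Int.gcd f g := by
      rw [Int.gcd_mul_left]; simp
    rw [← hf, ← hg, ← hd] at h1
    have h2 : d * Int.gcd f g = d * 1 := by rw [← h1]; ring
    exact Nat.eq_of_mul_eq_mul_left hd0 h2
  have hg0 : 0 < g := by
    have h1 : (0 : ℤ) < d := by exact_mod_cast hd0
    rw [hg] at hG0
    exact (mul_pos_iff_of_pos_left h1).mp hG0
  have hgN : IsCoprime g (N : ℤ) := by
    rw [hg] at hGN
    exact hGN.of_mul_left_right
  have hdN : IsCoprime (d : ℤ) (N : ℤ) := by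
    rw [hg] at hGN
    exact hGN.of_mul_left_left
  have hdvd2 : (N : ℤ) ^ n ∣ g * (code N a : ℤ) - f := by
    have h1 : (N : ℤ) ^ n ∣ d * (g * (code N a : ℤ) - f) := by
      have h2 : (d : ℤ) * (g * (code N a : ℤ) - f) = G * (code N a : ℤ) - F := by
        rw [hf, hg]; ring
      rw [h2]
      exact_mod_cast hdvd
    exact (IsCoprime.pow_left hdN.symm).dvd_of_dvd_mul_left h1
  obtain ⟨b, hb1, hb2⟩ := exists_extension N hN a f g hgN hdvd2
  refine ⟨(max |f| |g|).toNat, ⟨b, f, g, hb1, ⟨hg0, hfg, hb2⟩, ?_⟩, ?_⟩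
  · rw [Int.toNat_of_nonneg (le_max_of_le_left (abs_nonneg f))]
  · have h1 : max |f| |g| ≤ max |F| |G| := by
      have h2 : ∀ x : ℤ, |x| ≤ |(d : ℤ) * x| := by
        intro x
        rw [abs_mul]
        have h3 : (1 : ℤ) ≤ |(d : ℤ)| := by
          rw [abs_of_nonneg (by positivity)]; exact_mod_cast hd0
        nlinarith [abs_nonneg x]
      rw [hf, hg]
      exact max_le_max (h2 f) (h2 g)
    have h2 : ((max |f| |g|).toNat : ℤ) = max |f| |g| :=
      Int.toNat_of_nonneg (le_max_of_le_left (abs_nonneg f))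
    have h3 : (((max |f| |g|).toNat * mu (code N a) ((N ^ n : ℕ) : ℤ) : ℕ) : ℤ) ≤
        ((3 * (N - 1) * N ^ n : ℕ) : ℤ) := by
      rw [Nat.cast_mul, h2]
      have h4 : ((3 * (N - 1) * N ^ n : ℕ) : ℤ) = 3 * ((N : ℤ) - 1) * ((N ^ n : ℕ) : ℤ) := by
        push_cast [Nat.cast_sub (by omega : 1 ≤ N)]
        ring
      rw [h4]
      refine le_trans (mul_le_mul_of_nonneg_right h1 (by positivity)) ?_
      exact hsize
    exact_mod_cast h3

lemma sizes_nonempty (N : ℕ) (hN : 2 ≤ N) {n : ℕ} (a : Fin n → Fin N) : (sizes N a).Nonempty := by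
  obtain ⟨m, hm, _⟩ := exists_small N hN a
  exact ⟨m, hm⟩

lemma X_mem (N : ℕ) (hN : 2 ≤ N) {n : ℕ} (a : Fin n → Fin N) : X N a ∈ sizes N a :=
  Nat.sInf_mem (sizes_nonempty N hN a)

lemma sizes_pos {N n : ℕ} {a : Fin n → Fin N} {m : ℕ} (h : m ∈ sizes N a) : 0 < m := by
  obtain ⟨b, f, g, _, ⟨hg, _⟩, e⟩ := h
  have : (0 : ℤ) < m := by
    rw [e]
    exact lt_max_of_lt_right (abs_pos.mpr hg.ne')
  exact_mod_cast this

lemma isLeast (N : ℕ) (hN : 2 ≤ N) {n : ℕ} (a : Fin n → Fin N) :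
    IsLeast (lamSet N a) (Real.logb N (X N a)) := by
  constructor
  · obtain ⟨b, f, g, h1, h2, e⟩ := X_mem N hN a
    refine ⟨b, f, g, h1, h2, ?_⟩
    rw [← e]; simp
  · rintro r ⟨b, f, g, h1, h2, rfl⟩
    have h3 : (max |f| |g|).toNat ∈ sizes N a :=
      ⟨b, f, g, h1, h2, Int.toNat_of_nonneg (le_max_of_le_left (abs_nonneg f))⟩
    have h4 : X N a ≤ (max |f| |g|).toNat := Nat.sInf_le h3
    have h5 : ((max |f| |g|).toNat : ℤ) = max |f| |g| :=
      Int.toNat_of_nonneg (le_max_of_le_left (abs_nonneg f))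
    rw [← h5, Int.cast_natCast]
    apply Real.logb_le_logb_of_le
    · exact_mod_cast (by omega : 1 < N)
    · exact_mod_cast sizes_pos (X_mem N hN a)
    · exact_mod_cast h4

lemma lam_eq (N : ℕ) (hN : 2 ≤ N) {n : ℕ} (a : Fin n → Fin N) :
    lam N a = Real.logb N (X N a) := (isLeast N hN a).csInf_eq

/-! ### Tail bounds -/

lemma floor_bound (N : ℕ) (hN : 2 ≤ N) (n j : ℕ) (c : ℕ)
    (h : c ≤ 3 * ⌊(N : ℝ) ^ ((n : ℝ) / 2 - (j + 1 : ℕ))⌋₊ ^ 2) :
    (c : ℝ) ≤ 3 * (N : ℝ) ^ n * (1 / 4) ^ (j + 1) := by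
  have hN0 : (0 : ℝ) < N := by exact_mod_cast (by omega : 0 < N)
  have h1 : (⌊(N : ℝ) ^ ((n : ℝ) / 2 - (j + 1 : ℕ))⌋₊ : ℝ) ≤
      (N : ℝ) ^ ((n : ℝ) / 2 - (j + 1 : ℕ)) := Nat.floor_le (by positivity)
  have h2 : ((N : ℝ) ^ ((n : ℝ) / 2 - (j + 1 : ℕ))) ^ 2 =
      (N : ℝ) ^ n * ((1 : ℝ) / (N : ℝ) ^ 2) ^ (j + 1) := by
    rw [← Real.rpow_natCast, ← Real.rpow_mul hN0.le]
    have h3 : ((n : ℝ) / 2 - (j + 1 : ℕ)) * (2 : ℕ) = (n : ℝ) - ((2 * (j + 1) : ℕ) : ℝ) := by
      push_cast; ring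
    rw [h3, Real.rpow_sub hN0, Real.rpow_natCast, Real.rpow_natCast, div_pow, one_pow,
      ← pow_mul]
    field_simp
  have h3 : ((1 : ℝ) / (N : ℝ) ^ 2) ^ (j + 1) ≤ (1 / 4) ^ (j + 1) := by
    apply pow_le_pow_left₀ (by positivity)
    apply one_div_le_one_div_of_le (by norm_num)
    have : (2 : ℝ) ≤ N := by exact_mod_cast hN
    nlinarith
  calc (c : ℝ) ≤ 3 * (⌊(N : ℝ) ^ ((n : ℝ) / 2 - (j + 1 : ℕ))⌋₊ : ℝ) ^ 2 := by exact_mod_cast h
    _ ≤ 3 * ((N : ℝ) ^ ((n : ℝ) / 2 - (j + 1 : ℕ))) ^ 2 := by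
        have := pow_le_pow_left₀ (Nat.cast_nonneg _) h1 2
        linarith
    _ = 3 * (N : ℝ) ^ n * ((1 : ℝ) / (N : ℝ) ^ 2) ^ (j + 1) := by rw [h2]; ring
    _ ≤ 3 * (N : ℝ) ^ n * (1 / 4) ^ (j + 1) := by
        apply mul_le_mul_of_nonneg_left h3 (by positivity)

lemma le_floor_of_logb (N : ℕ) (hN : 2 ≤ N) (m : ℕ) (hm : 0 < m) (t : ℝ)
    (h : Real.logb N m < t) : m ≤ ⌊(N : ℝ) ^ t⌋₊ := by
  apply Nat.le_floor
  have hN1 : (1 : ℝ) < N := by exact_mod_cast (by omega : 1 < N)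
  rw [Real.logb_lt_iff_lt_rpow hN1 (by exact_mod_cast hm)] at h
  exact h.le

/-- Few words have small complexity. -/
lemma tail_lam (N : ℕ) (hN : 2 ≤ N) (n M : ℕ) (S : Finset (Fin n → Fin N))
    (hS : ∀ a ∈ S, X N a ≤ M) : S.card ≤ 3 * M ^ 2 := by
  classical
  have h1 : ∀ a : Fin n → Fin N, ∃ p : ℤ × ℤ, 0 < p.2 ∧ IsCoprime p.2 (N : ℤ) ∧
      (N : ℤ) ^ n ∣ p.2 * (code N a : ℤ) - p.1 ∧ (X N a : ℤ) = max |p.1| |p.2| := by
    intro a
    obtain ⟨b, f, g, h1, h2, e⟩ := X_mem N hN a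
    refine ⟨(f, g), h2.1, h2.coprime, ?_, e⟩
    have := h2.2.2 n
    rw [trunc_eq_code N a b h1] at this
    exact this
  choose p hp0 hpN hpd hpX using h1
  have hmaps : ∀ a ∈ S, p a ∈ (Finset.Icc (-(M : ℤ)) M) ×ˢ (Finset.Icc (1 : ℤ) M) := by
    intro a ha
    have h2 : (X N a : ℤ) ≤ M := by exact_mod_cast hS a ha
    rw [hpX] at h2
    have h3 : |(p a).1| ≤ M := le_trans (le_max_left _ _) h2
    have h4 : |(p a).2| ≤ M := le_trans (le_max_right _ _) h2
    rw [abs_le] at h3 h4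
    rw [mem_product, Finset.mem_Icc, Finset.mem_Icc]
    have := hp0 a
    refine ⟨⟨h3.1, h3.2⟩, ?_, h4.2⟩
    omega
  have hinj : Set.InjOn p S := by
    intro a _ a' _ haa
    apply code_inj N
    have h2 := hpd a
    have h3 := hpd a'
    rw [← haa] at h3
    have h4 := dvd_sub h2 h3
    have h5 : (p a).2 * (code N a : ℤ) - (p a).1 - ((p a).2 * (code N a' : ℤ) - (p a).1) =
        (p a).2 * ((code N a : ℤ) - (code N a' : ℤ)) := by ring
    rw [h5] at h4
    have h6 : (N : ℤ) ^ n ∣ (code N a : ℤ) - (code N a' : ℤ) :=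
      (IsCoprime.pow_left (hpN a).symm).dvd_of_dvd_mul_left h4
    have h7 : (code N a : ℤ) < (N : ℤ) ^ n := by exact_mod_cast code_lt N a
    have h8 : (code N a' : ℤ) < (N : ℤ) ^ n := by exact_mod_cast code_lt N a'
    have h9 := Int.eq_zero_of_abs_lt_dvd h6 (by rw [abs_lt]; constructor <;> omega)
    omega
  have hcard := Finset.card_le_card_of_injOn p hmaps hinj
  rw [card_product, Int.card_Icc, Int.card_Icc] at hcard
  have h2 : ((M : ℤ) + 1 - -(M : ℤ)).toNat = 2 * M + 1 := by omega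
  have h3 : ((M : ℤ) + 1 - 1).toNat = M := by omega
  rw [h2, h3] at hcard
  rcases Nat.eq_zero_or_pos M with h | h
  · subst h; simpa using hcard
  · nlinarith

lemma lower (N : ℕ) (hN : 2 ≤ N) (n : ℕ) : (n : ℝ) / 2 - 2 ≤ Efin N n := by
  have hN0 : (0 : ℝ) < N := by exact_mod_cast (by omega : 0 < N)
  have hN1 : (1 : ℝ) < N := by exact_mod_cast (by omega : 1 < N)
  unfold Efin
  rw [le_div_iff₀ (by positivity)]
  have h := mean_ge (Finset.univ : Finset (Fin n → Fin N)) ((N : ℝ) ^ n) ((n : ℝ) / 2) 3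
    (by positivity) (by simp) (fun a => lam N a) (by
      intro a _
      simp only [lam_eq N hN]
      apply Real.logb_nonneg hN1
      exact_mod_cast sizes_pos (X_mem N hN a)) (by norm_num) (by
      intro j
      apply floor_bound N hN
      apply tail_lam N hN
      intro a ha
      rw [mem_filter] at ha
      have h1 := ha.2
      rw [lam_eq N hN] at h1
      exact le_floor_of_logb N hN _ (sizes_pos (X_mem N hN a)) _ h1)
  calc ((n : ℝ) / 2 - 2) * (N : ℝ) ^ n = (N : ℝ) ^ n * ((n : ℝ) / 2 - (1 + 3 / 3)) := by ring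
    _ ≤ _ := h

lemma upper (N : ℕ) (hN : 2 ≤ N) (n : ℕ) : Efin N n ≤ (n : ℝ) / 2 + 4 := by
  have hN0 : (0 : ℝ) < N := by exact_mod_cast (by omega : 0 < N)
  have hN1 : (1 : ℝ) < N := by exact_mod_cast (by omega : 1 < N)
  have hQ : 0 < N ^ n := pow_pos (by omega) n
  unfold Efin
  rw [div_le_iff₀ (by positivity)]
  have hmu : ∀ a : Fin n → Fin N, 0 < mu (code N a) ((N ^ n : ℕ) : ℤ) := fun a =>
    mu_pos (by exact_mod_cast hQ)
  have h := mean_ge (Finset.univ : Finset (Fin n → Fin N)) ((N : ℝ) ^ n) ((n : ℝ) / 2) 3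
    (by positivity) (by simp)
    (fun a => Real.logb N (mu (code N a) ((N ^ n : ℕ) : ℤ))) (by
      intro a _
      apply Real.logb_nonneg hN1
      exact_mod_cast hmu a) (by norm_num) (by
      intro j
      apply floor_bound N hN
      set S := (Finset.univ : Finset (Fin n → Fin N)).filter (fun a =>
        Real.logb N (mu (code N a) ((N ^ n : ℕ) : ℤ)) < (n : ℝ) / 2 - (j + 1 : ℕ)) with hS
      have h1 : (S.image (code N)).card = S.card :=
        card_image_of_injective _ (fun a a' h => code_inj N a a' h)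
      rw [← h1]
      apply count_short (N ^ n) _ hQ
      intro A hA
      rw [mem_image] at hA
      obtain ⟨a, ha, rfl⟩ := hA
      rw [hS, mem_filter] at ha
      exact ⟨code_lt N a, le_floor_of_logb N hN _ (hmu a) _ ha.2⟩)
  have hX : ∀ a : Fin n → Fin N, lam N a ≤
      (n : ℝ) + 2 - Real.logb N (mu (code N a) ((N ^ n : ℕ) : ℤ)) := by
    intro a
    obtain ⟨m, hm, hle⟩ := exists_small N hN a
    have h1 : X N a ≤ m := Nat.sInf_le hm
    have h2 : X N a * mu (code N a) ((N ^ n : ℕ) : ℤ) ≤ N ^ (n + 2) := by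
      calc X N a * mu (code N a) ((N ^ n : ℕ) : ℤ) ≤ m * mu (code N a) ((N ^ n : ℕ) : ℤ) :=
            Nat.mul_le_mul_right _ h1
        _ ≤ 3 * (N - 1) * N ^ n := hle
        _ ≤ N ^ 2 * N ^ n := by
            apply Nat.mul_le_mul_right
            obtain ⟨k, rfl⟩ := Nat.exists_eq_add_of_le hN
            have : 2 + k - 1 = 1 + k := by omega
            rw [this]
            nlinarith [sq_nonneg (k : ℤ), Nat.zero_le k, Nat.le_mul_self k]
        _ = N ^ (n + 2) := by ring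
    have h3 : (0 : ℝ) < X N a := by exact_mod_cast sizes_pos (X_mem N hN a)
    have h4 : (0 : ℝ) < mu (code N a) ((N ^ n : ℕ) : ℤ) := by exact_mod_cast hmu a
    rw [lam_eq N hN]
    have h5 : Real.logb N (X N a) + Real.logb N (mu (code N a) ((N ^ n : ℕ) : ℤ)) ≤
        ((n + 2 : ℕ) : ℝ) := by
      rw [← Real.logb_mul h3.ne' h4.ne', Real.logb_le_iff_le_rpow hN1 (by positivity),
        Real.rpow_natCast]
      exact_mod_cast h2
    have h6 : ((n + 2 : ℕ) : ℝ) = (n : ℝ) + 2 := by push_cast; ring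
    rw [h6] at h5
    linarith
  calc ∑ a : Fin n → Fin N, lam N a
      ≤ ∑ a : Fin n → Fin N, ((n : ℝ) + 2 - Real.logb N (mu (code N a) ((N ^ n : ℕ) : ℤ))) :=
        sum_le_sum fun a _ => hX a
    _ = (N : ℝ) ^ n * ((n : ℝ) + 2) -
        ∑ a : Fin n → Fin N, Real.logb N (mu (code N a) ((N ^ n : ℕ) : ℤ)) := by
        rw [sum_sub_distrib]
        simp
        ring
    _ ≤ ((n : ℝ) / 2 + 4) * (N : ℝ) ^ n := by
        linarith

/-- **Main theorem.** For every `N ≥ 2`: the infimum in the definition of the `N`-adic complexity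
of a finite sequence is a minimum; the average over all sequences of length `n` satisfies
`n / 2 - 2 ≤ E_n^fin ≤ n / 2 + 4` for every `n`; in particular `E_n^fin / n → 1 / 2`. -/
theorem result (N : ℕ) (hN : 2 ≤ N) :
    (∀ (n : ℕ) (a : Fin n → Fin N), IsLeast (lamSet N a) (lam N a)) ∧
    (∀ n : ℕ, (n : ℝ) / 2 - 2 ≤ Efin N n ∧ Efin N n ≤ (n : ℝ) / 2 + 4) ∧
    Tendsto (fun n : ℕ => Efin N n / n) atTop (𝓝 (1 / 2)) := by
  refine ⟨fun n a => ?_, fun n => ⟨lower N hN n, upper N hN n⟩, ?_⟩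
  · rw [lam_eq N hN]; exact isLeast N hN a
  · have h1 : Tendsto (fun n : ℕ => (1 : ℝ) / 2 - 2 / n) atTop (𝓝 (1 / 2)) := by
      have := (tendsto_const_div_atTop_nhds_zero_nat (2 : ℝ)).const_sub ((1 : ℝ) / 2)
      simpa using this
    have h2 : Tendsto (fun n : ℕ => (1 : ℝ) / 2 + 4 / n) atTop (𝓝 (1 / 2)) := by
      have := (tendsto_const_div_atTop_nhds_zero_nat (4 : ℝ)).const_add ((1 : ℝ) / 2)
      simpa using this
    refine tendsto_of_tendsto_of_tendsto_of_le_of_le' h1 h2 ?_ ?_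
    · filter_upwards [eventually_gt_atTop 0] with n hn
      have hn' : (0 : ℝ) < n := by exact_mod_cast hn
      rw [le_div_iff₀ hn']
      have := lower N hN n
      have h3 : ((1 : ℝ) / 2 - 2 / n) * n = n / 2 - 2 := by field_simp
      rw [h3]; exact this
    · filter_upwards [eventually_gt_atTop 0] with n hn
      have hn' : (0 : ℝ) < n := by exact_mod_cast hn
      rw [div_le_iff₀ hn']
      have := upper N hN n
      have h3 : ((1 : ℝ) / 2 + 4 / n) * n = n / 2 + 4 := by field_simp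
      rw [h3]; exact this

end Pool.Agent.Results.MP_68df70_lc.HalfLength
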